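import Mathlib

/-!
# Distinct-square drop from filling one of two holes (MP_322323_co, Q1, disproof)

The identity `Δ₂Sq(n) = ⌊7(n-1)/10⌋` fails at `n = 28`: the partial word
`0111111101111◇◇1101111111011` contains 30 distinct squares, and filling its second hole by `0`
leaves only 11, so that `Δ₂Sq(28) ≥ 19 > 18 = ⌊7 · 27 / 10⌋`.
-/

namespace Pool.Agent.Results.MP_322323_co.DropTwoHoles

/-- A binary partial word: `some false`, `some true` are the letters `0`, `1`; `none` is a hole. -/
abbrev PWord := List (Option Bool)

/-- The number of holes. -/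
def holes (w : PWord) : ℕ := w.count none

/-- `u ⊂ v` for a partial word `u` and a full word `v`: they have the same length and `v` carries
the same letter as `u` at every position where `u` is not a hole. -/
def Fits (u : PWord) (v : List Bool) : Prop :=
  List.Forall₂ (fun a b => a = none ∨ a = some b) u v

/-- The set of the nonempty full words `x` such that `u ⊂ x x` for some factor `u` of `w`. -/
def squares (w : PWord) : Set (List Bool) :=
  {x | x ≠ [] ∧ ∃ u, u <:+: w ∧ Fits u (x ++ x)}

/-- `Sq(w)`, the number of distinct squares of `w` (counted by their roots). -/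
noncomputable def Sq (w : PWord) : ℕ := (squares w).ncard

/-- `w'` is obtained from `w` by replacing exactly one hole by a letter. -/
def Strengthening (w w' : PWord) : Prop :=
  ∃ (i : ℕ) (b : Bool), w[i]? = some none ∧ w' = w.set i (some b)

/-- `Δ_h Sq(n)`: the largest value of `Sq(w) - Sq(w')`, for `w` a binary partial word of length `n`
with exactly `h` holes and `w'` a strengthening of `w`. -/
noncomputable def deltaSq (h n : ℕ) : ℤ :=
  sSup {d : ℤ | ∃ w w' : PWord, w.length = n ∧ holes w = h ∧ Strengthening w w' ∧
    d = (Sq w : ℤ) - (Sq w' : ℤ)}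

/-! ### The values are attained -/

theorem strengthening_length {w w' : PWord} (h : Strengthening w w') : w'.length = w.length := by
  obtain ⟨i, b, _, rfl⟩ := h
  simp

theorem deltaSet_finite (h n : ℕ) :
    {d : ℤ | ∃ w w' : PWord, w.length = n ∧ holes w = h ∧ Strengthening w w' ∧
      d = (Sq w : ℤ) - (Sq w' : ℤ)}.Finite := by
  have hf : {l : PWord | l.length = n}.Finite := List.finite_length_eq (Option Bool) n
  refine ((hf.prod hf).image (fun p => (Sq p.1 : ℤ) - (Sq p.2 : ℤ))).subset ?_
  rintro d ⟨w, w', hw, _, hs, rfl⟩
  exact ⟨(w, w'), ⟨hw, (strengthening_length hs).trans hw⟩, rfl⟩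

/-- The supremum in the definition of `deltaSq` is a maximum as soon as there is at least one hole:
`deltaSq h n` is attained when `1 ≤ h ≤ n`. -/
theorem deltaSq_isGreatest (h n : ℕ) (h1 : 1 ≤ h) (h2 : h ≤ n) :
    IsGreatest {d : ℤ | ∃ w w' : PWord, w.length = n ∧ holes w = h ∧ Strengthening w w' ∧
      d = (Sq w : ℤ) - (Sq w' : ℤ)} (deltaSq h n) := by
  have hne : {d : ℤ | ∃ w w' : PWord, w.length = n ∧ holes w = h ∧ Strengthening w w' ∧
      d = (Sq w : ℤ) - (Sq w' : ℤ)}.Nonempty := by
    refine ⟨_, List.replicate h none ++ List.replicate (n - h) (some false), _, ?_, ?_,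
      ⟨0, false, ?_, rfl⟩, rfl⟩
    · simp
      omega
    · simp [holes, List.count_replicate]
    · obtain ⟨k, rfl⟩ : ∃ k, h = k + 1 := ⟨h - 1, by omega⟩
      simp [List.replicate_succ]
  exact ⟨hne.csSup_mem (deltaSet_finite h n), fun d hd => le_csSup (deltaSet_finite h n).bddAbove hd⟩

/-! ### Enumerating the squares -/

/-- All full words `x` with `u ⊂ x` and `v ⊂ x`. -/
def cands : PWord → PWord → List (List Bool)
  | [], [] => [[]]
  | a :: u, b :: v =>
    ([false, true].filter (fun c => (a == none || a == some c) && (b == none || b == some c))).flatMap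
      (fun c => (cands u v).map (fun x => c :: x))
  | _, _ => []

theorem mem_cands {u v : PWord} {x : List Bool} (hu : Fits u x) (hv : Fits v x) :
    x ∈ cands u v := by
  induction x generalizing u v with
  | nil =>
    have h1 : u = [] := List.forall₂_nil_right_iff.mp hu
    have h2 : v = [] := List.forall₂_nil_right_iff.mp hv
    subst h1 h2
    simp [cands]
  | cons c x ih =>
    obtain ⟨a, u', ha, hu', rfl⟩ := List.forall₂_cons_right_iff.mp hu
    obtain ⟨b, v', hb, hv', rfl⟩ := List.forall₂_cons_right_iff.mp hv
    simp only [cands, List.mem_flatMap, List.mem_filter, List.mem_map]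
    refine ⟨c, ⟨by cases c <;> simp, ?_⟩, x, ih hu' hv', rfl⟩
    simpa using And.intro ha hb

theorem fits_append {u : PWord} {x y : List Bool} (h : Fits u (x ++ y)) :
    Fits (u.take x.length) x ∧ Fits (u.drop x.length) y := by
  constructor
  · have := List.forall₂_take x.length h
    rw [List.take_left'] at this
    · exact this
    · rfl
  · have := List.forall₂_drop x.length h
    rw [List.drop_left'] at this
    · exact this
    · rfl

/-- All squares of `w`, with repetitions. -/
def allSq (w : PWord) : List (List Bool) :=
  (List.range (w.length + 1)).flatMap (fun i => (List.range (w.length / 2 + 1)).flatMap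
    (fun k => cands ((w.drop i).take k) (((w.drop i).drop k).take k)))

theorem squares_subset (w : PWord) : ∀ x ∈ squares w, x ∈ allSq w := by
  rintro x ⟨_, u, ⟨s, t, rfl⟩, hf⟩
  have hlen : u.length = x.length + x.length := by
    have := List.Forall₂.length_eq hf
    simpa using this
  have h2 := fits_append hf
  simp only [allSq, List.mem_flatMap, List.mem_range]
  refine ⟨s.length, by simp, x.length, by simp; omega, ?_⟩
  have e1 : List.drop s.length (s ++ u ++ t) = u ++ t := by
    rw [List.append_assoc, List.drop_left]
  rw [e1]
  apply mem_cands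
  · have : List.take x.length (u ++ t) = List.take x.length u := by
      rw [List.take_append_of_le_length (by omega)]
    rw [this]
    exact h2.1
  · have : List.take x.length (List.drop x.length (u ++ t)) = List.drop x.length u := by
      rw [List.drop_append_of_le_length (by omega), List.take_append_of_le_length
        (by rw [List.length_drop]; omega), List.take_of_length_le (by rw [List.length_drop]; omega)]
    rw [this]
    exact h2.2

/-- Decision procedure for `Fits`. -/
def fitsB : PWord → List Bool → Bool
  | [], [] => true
  | a :: u, b :: v => (a == none || a == some b) && fitsB u v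
  | _, _ => false

theorem fits_of_fitsB {u : PWord} {x : List Bool} (h : fitsB u x = true) : Fits u x := by
  induction x generalizing u with
  | nil =>
    cases u with
    | nil => exact List.Forall₂.nil
    | cons a u => simp [fitsB] at h
  | cons c x ih =>
    cases u with
    | nil => simp [fitsB] at h
    | cons a u =>
      simp only [fitsB, Bool.and_eq_true, Bool.or_eq_true, beq_iff_eq] at h
      exact List.Forall₂.cons h.1 (ih h.2)

/-! ### The witness -/

/-- The partial word `0111111101111◇◇1101111111011`. -/
def wit : PWord :=
  [some false, some true, some true, some true, some true, some true, some true, some true,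
   some false, some true, some true, some true, some true, none, none, some true, some true,
   some false, some true, some true, some true, some true, some true, some true, some true,
   some false, some true, some true]

/-- The full word with one hole `0111111101111◇01101111111011`. -/
def wit' : PWord := wit.set 14 (some false)

/-- Thirty distinct squares of `wit` (their roots), with the positions where they occur. -/
def wsq : List (ℕ × List Bool) :=
  (List.range (wit.length + 1)).flatMap (fun i => (List.range (wit.length / 2 + 1)).flatMap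
    (fun k => if k = 0 ∨ wit.length < i + 2 * k then [] else
      (cands ((wit.drop i).take k) (((wit.drop i).drop k).take k)).map (fun x => (i, x))))

theorem wsq_ok : ∀ p ∈ wsq, p.2 ≠ [] ∧
    fitsB ((wit.drop p.1).take (2 * p.2.length)) (p.2 ++ p.2) = true := by
  decide +kernel

theorem wsq_card : (wsq.map Prod.snd).toFinset.card = 30 := by
  decide +kernel

theorem wit'_card : ((allSq wit').filter (fun x => x ≠ [])).toFinset.card = 11 := by
  decide +kernel

theorem squares_finite (w : PWord) : (squares w).Finite :=
  (List.finite_toSet (allSq w)).subset (squares_subset w)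

theorem Sq_wit : 30 ≤ Sq wit := by
  rw [← wsq_card, ← Set.ncard_coe_finset]
  apply Set.ncard_le_ncard _ (squares_finite wit)
  intro x hx
  rw [Finset.mem_coe, List.mem_toFinset, List.mem_map] at hx
  obtain ⟨p, hp, rfl⟩ := hx
  obtain ⟨h1, h2⟩ := wsq_ok p hp
  exact ⟨h1, _, (List.take_prefix _ _).isInfix.trans (List.drop_suffix _ _).isInfix,
    fits_of_fitsB h2⟩

theorem Sq_wit' : Sq wit' ≤ 11 := by
  rw [← wit'_card, ← Set.ncard_coe_finset]
  apply Set.ncard_le_ncard _ (Finset.finite_toSet _)
  intro x hx
  rw [Finset.mem_coe, List.mem_toFinset, List.mem_filter]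
  exact ⟨squares_subset _ x hx, by simpa using hx.1⟩

/-- `Δ₂Sq(28) ≥ 19`. -/
theorem deltaSq_28 : 19 ≤ deltaSq 2 28 := by
  have h : ((Sq wit : ℤ) - (Sq wit' : ℤ)) ≤ deltaSq 2 28 := by
    apply le_csSup (deltaSet_finite 2 28).bddAbove
    exact ⟨wit, wit', by decide, by decide, ⟨14, false, by decide, rfl⟩, rfl⟩
  have h1 := Sq_wit
  have h2 := Sq_wit'
  omega

/-- **MP_322323_co, Q1 (disproof).** It is not true that `Δ₂Sq(n) = ⌊7(n-1)/10⌋` for every `n ≥ 8`;
indeed `Δ₂Sq(28) ≥ 19` while `⌊7 · 27 / 10⌋ = 18`. -/
theorem result :
    (19 ≤ deltaSq 2 28 ∧ (7 * ((28 : ℤ) - 1)) / 10 = 18) ∧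
    ¬ ∀ n : ℕ, 8 ≤ n → deltaSq 2 n = (7 * ((n : ℤ) - 1)) / 10 := by
  refine ⟨⟨deltaSq_28, by norm_num⟩, ?_⟩
  intro h
  have h1 := h 28 (by norm_num)
  have h2 := deltaSq_28
  norm_num at h1
  omega

end Pool.Agent.Results.MP_322323_co.DropTwoHoles
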